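import Pool.Agent.helper23.F2.Spec

set_option autoImplicit false

open scoped BigOperators

namespace Pool.Agent.F2

open Pool.Agent.helper23.TH

noncomputable section

open Classical

theorem AL10_card {V L : Type} {b s k : ℕ} (G : LG V L b s) (H : HG) (m m' : V)
    (w : Option H.W → Fin (k + 2) → V) :
    ((Finset.univ : Finset (H.W ⊕ Bool)).biUnion (fun x => G.lv (xv H m m' w x)) ∪
      (Finset.univ : Finset H.W).biUnion (fun i => xe G H m m' w i)).card ≤
      (2 * Fintype.card H.W + 2) * b := by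
  refine le_trans (Finset.card_union_le _ _) ?_
  have h1 : ((Finset.univ : Finset (H.W ⊕ Bool)).biUnion (fun x => G.lv (xv H m m' w x))).card ≤
      (Finset.univ : Finset (H.W ⊕ Bool)).card * b :=
    Finset.card_biUnion_le_card_mul _ _ _ (fun x _ => G.bv _)
  have h2 : ((Finset.univ : Finset H.W).biUnion (fun i => xe G H m m' w i)).card ≤
      (Finset.univ : Finset H.W).card * b :=
    Finset.card_biUnion_le_card_mul _ _ _ (fun x _ => G.be _ _)
  have h3 : (Finset.univ : Finset (H.W ⊕ Bool)).card = Fintype.card H.W + 2 := by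
    rw [Finset.card_univ, Fintype.card_sum, Fintype.card_bool]
  rw [h3] at h1
  rw [Finset.card_univ] at h2
  calc _ ≤ (Fintype.card H.W + 2) * b + Fintype.card H.W * b := Nat.add_le_add h1 h2
    _ = _ := by ring

theorem AL10 (hAL4 : AL4_stmt) (hAL6 : AL6_stmt) (hAL7 : AL7_stmt) (hAL8 : AL8_stmt) (hAL9 : AL9_stmt) : AL10_stmt := by
  intro H k b s hW hk
  set q : ℕ := (2 * Fintype.card H.W + 2) * b + (Fintype.card H.E + 1) * ((2 * (k + 1) + 1) * b) + 1
    with hq
  set δ : ℝ := 1 / ((Fintype.card H.W : ℝ) + 2) ^ 2 with hδ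
  have hcW : (0 : ℝ) ≤ (Fintype.card H.W : ℝ) := Nat.cast_nonneg _
  have hδ0 : 0 < δ := by
    rw [hδ]
    positivity
  obtain ⟨C, hC, hmain⟩ := hAL4 k q b s δ hk hδ0
  refine ⟨C, hC, ?_⟩
  intro V L _ _ G Δ hN hΔ hdeg hh1
  have hN' : (0 : ℝ) < (Fintype.card V : ℝ) := by exact_mod_cast hN
  have hpos : 0 < hh G.A (k + 1) := by
    refine lt_of_lt_of_le ?_ hh1
    positivity
  have hbad := hmain V L G Δ hΔ.le hdeg hh1
  have hδ1 : δ * (Fintype.card (Option H.W) : ℝ) ^ 2 < 1 := by
    rw [Fintype.card_option, hδ]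
    push_cast
    rw [div_mul_eq_mul_div, one_mul, div_lt_one (by positivity)]
    apply pow_lt_pow_left₀ _ (by positivity) (by norm_num)
    linarith
  obtain ⟨m, m', w, hw1, hw2⟩ := hAL6 V L b s G k q (Option H.W) δ hδ0.le hδ1 hpos hbad
  have hsys : Sys G k q H.W m m' w := ⟨hw1, hw2⟩
  obtain ⟨a1, a2, a3, a4, a5⟩ := hAL7 V L b s G k q H m m' w hk hW hsys
  have hF := AL10_card G H m m' w
  set F : Finset L := (Finset.univ : Finset (H.W ⊕ Bool)).biUnion (fun x => G.lv (xv H m m' w x)) ∪
      (Finset.univ : Finset H.W).biUnion (fun i => xe G H m m' w i) with hFdef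
  obtain ⟨Q, hQ1, hQ2⟩ := hAL8 V L b s G (k + 1) q H (xv H m m' w) F (by
    intro e
    have hok := H.ok e
    rcases hc1 : H.col (H.ed e).1 with _ | _
    · left
      apply a5 _ _ hc1
      rw [hc1] at hok
      rcases hc2 : H.col (H.ed e).2 with _ | _
      · exact absurd hc2.symm hok
      · rfl
    · right
      apply a5 _ _ _ hc1
      rw [hc1] at hok
      rcases hc2 : H.col (H.ed e).2 with _ | _
      · rfl
      · exact absurd hc2.symm hok) (by
    rw [hq]
    omega)
  refine hAL9 V L b s G (k + 1) H (xv H m m' w) F Q (by omega) a1 a2 a3 a4 ?_ ?_ hQ1 hQ2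
  · intro x
    rw [hFdef]
    refine Finset.Subset.trans ?_ Finset.subset_union_left
    exact Finset.subset_biUnion_of_mem (fun x => G.lv (xv H m m' w x)) (Finset.mem_univ x)
  · intro i
    rw [hFdef]
    refine Finset.Subset.trans ?_ Finset.subset_union_right
    exact Finset.subset_biUnion_of_mem (fun i => xe G H m m' w i) (Finset.mem_univ i)

end

end Pool.Agent.F2
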